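import Mathlib
import Pool.Agent.V116.IZBasic

/-!
Of the three atoms `SL`, `ZM`, `BA` of the lattice of varieties of implication zroupoids exactly
`ZM` is neutral.
-/

namespace Pool.Agent.Results.MP_be65b5_al.Neutrality

open Pool.Agent.V116.IZBasic

universe u

/-- The sublattice generated by three elements. -/
inductive Gen {L : Type u} [Lattice L] (a y z : L) : L → Prop
  | a : Gen a y z a
  | y : Gen a y z y
  | z : Gen a y z z
  | sup {u v : L} : Gen a y z u → Gen a y z v → Gen a y z (u ⊔ v)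
  | inf {u v : L} : Gen a y z u → Gen a y z v → Gen a y z (u ⊓ v)

/-- `a` is neutral: for all `y, z` the sublattice generated by `a, y, z` is distributive. -/
def IsNeutral {L : Type u} [Lattice L] (a : L) : Prop :=
  ∀ y z u v w : L, Gen a y z u → Gen a y z v → Gen a y z w →
    u ⊓ (v ⊔ w) = (u ⊓ v) ⊔ (u ⊓ w)

/-- The variety `SL`. -/
def SL : SubVar.{u} :=
  ⟨Mod (IZax ∪ {(.imp (.imp (.var 0) (.var 1)) (.var 2), .imp (.var 0) (.imp (.var 1) (.var 2))),
      (.imp (.var 0) (.var 0), .var 0), (.imp (.var 0) (.var 1), .imp (.var 1) (.var 0))}),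
    _, Set.subset_union_left, rfl⟩

/-- A Boolean algebra viewed as an implication zroupoid. -/
def ofBA (B : Type u) [BooleanAlgebra B] : Alg.{u} where
  carrier := B
  imp := fun x y => xᶜ ⊔ y
  zero := ⊥

/-- The class of all Boolean algebras viewed as implication zroupoids. -/
def BAcls : Set Alg.{u} := {A | ∃ (B : Type u) (_ : BooleanAlgebra B), A = ofBA B}

lemma izax_ofBA (B : Type u) [BooleanAlgebra B] : ∀ e ∈ IZax, Holds (ofBA B) e := by
  have key : ∀ x y z : B, (xᶜ ⊔ y)ᶜ ⊔ z =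
      (((zᶜ ⊔ ⊥)ᶜ ⊔ x)ᶜ ⊔ ((yᶜ ⊔ z)ᶜ ⊔ ⊥))ᶜ ⊔ ⊥ := by
    intro x y z
    simp only [sup_bot_eq, compl_compl, compl_sup]
    rw [compl_inf, compl_inf, compl_compl, compl_compl]
    rw [sup_inf_right]
    rw [sup_comm x z]
  have key0 : (((⊥ : B)ᶜ ⊔ ⊥)ᶜ ⊔ ⊥ : B) = ⊥ := by simp
  intro e he v
  simp only [IZax, Set.mem_insert_iff, Set.mem_singleton_iff] at he
  rcases he with rfl | rfl
  · exact key (v 0) (v 1) (v 2)
  · exact key0

/-- The variety `BA` of Boolean algebras. -/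
def BA : SubVar.{u} := ⟨Mod (Th BAcls.{u}), Th BAcls.{u}, by
  rintro e he A ⟨B, _, rfl⟩
  exact izax_ofBA B e he, rfl⟩

/-! ### Lattice theory -/

section LatticeTheory

variable {L : Type u} [Lattice L]

lemma distr_of_le {u v w : L} (h : v ≤ w) : u ⊓ (v ⊔ w) = (u ⊓ v) ⊔ (u ⊓ w) := by
  rw [sup_eq_right.mpr h, sup_eq_right.mpr (inf_le_inf_left u h)]

lemma distr_of_ge {u v w : L} (h : w ≤ v) : u ⊓ (v ⊔ w) = (u ⊓ v) ⊔ (u ⊓ w) := by
  rw [sup_eq_left.mpr h, sup_eq_left.mpr (inf_le_inf_left u h)]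

/-- The set of elements generated by `Y, Z` together with an element `c`. -/
def InE (c Y Z u : L) : Prop := u = c ∨ u = Y ∨ u = Z ∨ u = Y ⊓ Z ∨ u = Y ⊔ Z

lemma distr_mid {c Y Z u : L} (hc : c ≤ Y ⊓ Z ∨ Y ⊔ Z ≤ c) (hu : InE c Y Z u) :
    u ⊓ (Y ⊔ Z) = (u ⊓ Y) ⊔ (u ⊓ Z) := by
  rcases hu with rfl | rfl | rfl | rfl | rfl
  · rcases hc with h | h
    · have h1 : u ≤ Y := h.trans inf_le_left
      have h2 : u ≤ Z := h.trans inf_le_right
      rw [inf_eq_left.mpr h1, inf_eq_left.mpr h2, inf_eq_left.mpr (h1.trans le_sup_left),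
        sup_idem]
    · have h1 : Y ≤ u := le_sup_left.trans h
      have h2 : Z ≤ u := le_sup_right.trans h
      rw [inf_eq_right.mpr h1, inf_eq_right.mpr h2, inf_eq_right.mpr h]
  · rw [inf_idem, sup_inf_self, inf_sup_self]
  · have h1 : u ⊓ (Y ⊔ u) = u := inf_eq_left.mpr le_sup_right
    have h2 : (u ⊓ Y) ⊔ (u ⊓ u) = u := by
      rw [inf_idem]
      exact sup_eq_right.mpr inf_le_left
    rw [h1, h2]
  · rw [inf_eq_left.mpr (inf_le_left.trans le_sup_left),
      inf_eq_left.mpr (inf_le_left : Y ⊓ Z ≤ Y), inf_eq_left.mpr (inf_le_right : Y ⊓ Z ≤ Z),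
      sup_idem]
  · rw [inf_idem, inf_eq_right.mpr (le_sup_left : Y ≤ Y ⊔ Z),
      inf_eq_right.mpr (le_sup_right : Z ≤ Y ⊔ Z)]

lemma distr_E {c Y Z u v w : L} (hc : c ≤ Y ⊓ Z ∨ Y ⊔ Z ≤ c) (hu : InE c Y Z u)
    (hv : InE c Y Z v) (hw : InE c Y Z w) : u ⊓ (v ⊔ w) = (u ⊓ v) ⊔ (u ⊓ w) := by
  have hcomp : ∀ t, InE c Y Z t → c ≤ t ∨ t ≤ c := by
    intro t ht
    rcases hc with h | h
    · left
      rcases ht with rfl | rfl | rfl | rfl | rfl
      · exact le_rfl
      · exact h.trans inf_le_left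
      · exact h.trans inf_le_right
      · exact h
      · exact h.trans (inf_le_left.trans le_sup_left)
    · right
      rcases ht with rfl | rfl | rfl | rfl | rfl
      · exact le_rfl
      · exact le_sup_left.trans h
      · exact le_sup_right.trans h
      · exact (inf_le_left.trans le_sup_left).trans h
      · exact h
  have hYZ : Y ⊓ Z ≤ Y ⊔ Z := inf_le_left.trans le_sup_left
  rcases hv with rfl | rfl | rfl | rfl | rfl
  · rcases hcomp w hw with h | h
    · exact distr_of_le h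
    · exact distr_of_ge h
  · rcases hw with rfl | rfl | rfl | rfl | rfl
    · rcases hcomp v (Or.inr (Or.inl rfl)) with h | h
      · exact distr_of_ge h
      · exact distr_of_le h
    · exact distr_of_le le_rfl
    · exact distr_mid hc hu
    · exact distr_of_ge inf_le_left
    · exact distr_of_le le_sup_left
  · rcases hw with rfl | rfl | rfl | rfl | rfl
    · rcases hcomp v (Or.inr (Or.inr (Or.inl rfl))) with h | h
      · exact distr_of_ge h
      · exact distr_of_le h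
    · rw [sup_comm v w, sup_comm (u ⊓ v)]
      exact distr_mid hc hu
    · exact distr_of_le le_rfl
    · exact distr_of_ge inf_le_right
    · exact distr_of_le le_sup_right
  · rcases hw with rfl | rfl | rfl | rfl | rfl
    · rcases hcomp _ (Or.inr (Or.inr (Or.inr (Or.inl rfl)))) with h | h
      · exact distr_of_ge h
      · exact distr_of_le h
    · exact distr_of_le inf_le_left
    · exact distr_of_le inf_le_right
    · exact distr_of_le le_rfl
    · exact distr_of_le hYZ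
  · rcases hw with rfl | rfl | rfl | rfl | rfl
    · rcases hcomp _ (Or.inr (Or.inr (Or.inr (Or.inr rfl)))) with h | h
      · exact distr_of_ge h
      · exact distr_of_le h
    · exact distr_of_ge le_sup_left
    · exact distr_of_ge le_sup_right
    · exact distr_of_ge hYZ
    · exact distr_of_le le_rfl

lemma inE_sup {c Y Z u v : L} (hc : c ≤ Y ⊓ Z ∨ Y ⊔ Z ≤ c) (hu : InE c Y Z u)
    (hv : InE c Y Z v) : InE c Y Z (u ⊔ v) := by
  unfold InE at *
  have hYZ : Y ⊓ Z ≤ Y ⊔ Z := inf_le_left.trans le_sup_left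
  have e1 : Y ⊔ (Y ⊓ Z) = Y := sup_inf_self
  have e2 : Z ⊔ (Y ⊓ Z) = Z := by rw [inf_comm, sup_inf_self]
  have e3 : Y ⊔ (Y ⊔ Z) = Y ⊔ Z := sup_eq_right.mpr le_sup_left
  have e4 : Z ⊔ (Y ⊔ Z) = Y ⊔ Z := sup_eq_right.mpr le_sup_right
  have e5 : (Y ⊓ Z) ⊔ (Y ⊔ Z) = Y ⊔ Z := sup_eq_right.mpr hYZ
  have e1' : (Y ⊓ Z) ⊔ Y = Y := by rw [sup_comm, e1]
  have e2' : (Y ⊓ Z) ⊔ Z = Z := by rw [sup_comm, e2]
  have e3' : (Y ⊔ Z) ⊔ Y = Y ⊔ Z := by rw [sup_comm, e3]
  have e4' : (Y ⊔ Z) ⊔ Z = Y ⊔ Z := by rw [sup_comm, e4]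
  have e5' : (Y ⊔ Z) ⊔ (Y ⊓ Z) = Y ⊔ Z := by rw [sup_comm, e5]
  have e6 : Z ⊔ Y = Y ⊔ Z := sup_comm _ _
  rcases hc with h | h
  · have c1 : c ≤ Y := h.trans inf_le_left
    have c2 : c ≤ Z := h.trans inf_le_right
    have c3 : c ≤ Y ⊔ Z := h.trans hYZ
    have d1 : c ⊔ Y = Y := sup_eq_right.mpr c1
    have d2 : c ⊔ Z = Z := sup_eq_right.mpr c2
    have d3 : c ⊔ (Y ⊔ Z) = Y ⊔ Z := sup_eq_right.mpr c3
    have d4 : c ⊔ (Y ⊓ Z) = Y ⊓ Z := sup_eq_right.mpr h
    have d1' : Y ⊔ c = Y := sup_eq_left.mpr c1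
    have d2' : Z ⊔ c = Z := sup_eq_left.mpr c2
    have d3' : (Y ⊔ Z) ⊔ c = Y ⊔ Z := sup_eq_left.mpr c3
    have d4' : (Y ⊓ Z) ⊔ c = Y ⊓ Z := sup_eq_left.mpr h
    rcases hu with rfl | rfl | rfl | rfl | rfl <;> rcases hv with rfl | rfl | rfl | rfl | rfl <;>
      simp only [sup_idem, e1, e2, e3, e4, e5, e1', e2', e3', e4', e5', e6, d1, d2, d3, d4,
        d1', d2', d3', d4', true_or, or_true]
  · have c1 : Y ≤ c := le_sup_left.trans h
    have c2 : Z ≤ c := le_sup_right.trans h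
    have c4 : Y ⊓ Z ≤ c := hYZ.trans h
    have d1 : c ⊔ Y = c := sup_eq_left.mpr c1
    have d2 : c ⊔ Z = c := sup_eq_left.mpr c2
    have d3 : c ⊔ (Y ⊔ Z) = c := sup_eq_left.mpr h
    have d4 : c ⊔ (Y ⊓ Z) = c := sup_eq_left.mpr c4
    have d1' : Y ⊔ c = c := sup_eq_right.mpr c1
    have d2' : Z ⊔ c = c := sup_eq_right.mpr c2
    have d3' : (Y ⊔ Z) ⊔ c = c := sup_eq_right.mpr h
    have d4' : (Y ⊓ Z) ⊔ c = c := sup_eq_right.mpr c4
    rcases hu with rfl | rfl | rfl | rfl | rfl <;> rcases hv with rfl | rfl | rfl | rfl | rfl <;>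
      simp only [sup_idem, e1, e2, e3, e4, e5, e1', e2', e3', e4', e5', e6, d1, d2, d3, d4,
        d1', d2', d3', d4', true_or, or_true]

lemma inE_inf {c Y Z u v : L} (hc : c ≤ Y ⊓ Z ∨ Y ⊔ Z ≤ c) (hu : InE c Y Z u)
    (hv : InE c Y Z v) : InE c Y Z (u ⊓ v) := by
  unfold InE at *
  have hYZ : Y ⊓ Z ≤ Y ⊔ Z := inf_le_left.trans le_sup_left
  have e1 : Y ⊓ (Y ⊓ Z) = Y ⊓ Z := inf_eq_right.mpr inf_le_left
  have e2 : Z ⊓ (Y ⊓ Z) = Y ⊓ Z := inf_eq_right.mpr inf_le_right
  have e3 : Y ⊓ (Y ⊔ Z) = Y := inf_eq_left.mpr le_sup_left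
  have e4 : Z ⊓ (Y ⊔ Z) = Z := inf_eq_left.mpr le_sup_right
  have e5 : (Y ⊓ Z) ⊓ (Y ⊔ Z) = Y ⊓ Z := inf_eq_left.mpr hYZ
  have e1' : (Y ⊓ Z) ⊓ Y = Y ⊓ Z := by rw [inf_comm, e1]
  have e2' : (Y ⊓ Z) ⊓ Z = Y ⊓ Z := by rw [inf_comm, e2]
  have e3' : (Y ⊔ Z) ⊓ Y = Y := by rw [inf_comm, e3]
  have e4' : (Y ⊔ Z) ⊓ Z = Z := by rw [inf_comm, e4]
  have e5' : (Y ⊔ Z) ⊓ (Y ⊓ Z) = Y ⊓ Z := by rw [inf_comm, e5]
  have e6 : Z ⊓ Y = Y ⊓ Z := inf_comm _ _
  rcases hc with h | h
  · have c1 : c ≤ Y := h.trans inf_le_left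
    have c2 : c ≤ Z := h.trans inf_le_right
    have c3 : c ≤ Y ⊔ Z := h.trans hYZ
    have d1 : c ⊓ Y = c := inf_eq_left.mpr c1
    have d2 : c ⊓ Z = c := inf_eq_left.mpr c2
    have d3 : c ⊓ (Y ⊔ Z) = c := inf_eq_left.mpr c3
    have d4 : c ⊓ (Y ⊓ Z) = c := inf_eq_left.mpr h
    have d1' : Y ⊓ c = c := inf_eq_right.mpr c1
    have d2' : Z ⊓ c = c := inf_eq_right.mpr c2
    have d3' : (Y ⊔ Z) ⊓ c = c := inf_eq_right.mpr c3
    have d4' : (Y ⊓ Z) ⊓ c = c := inf_eq_right.mpr h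
    rcases hu with rfl | rfl | rfl | rfl | rfl <;> rcases hv with rfl | rfl | rfl | rfl | rfl <;>
      simp only [inf_idem, e1, e2, e3, e4, e5, e1', e2', e3', e4', e5', e6, d1, d2, d3, d4,
        d1', d2', d3', d4', true_or, or_true]
  · have c1 : Y ≤ c := le_sup_left.trans h
    have c2 : Z ≤ c := le_sup_right.trans h
    have c4 : Y ⊓ Z ≤ c := hYZ.trans h
    have d1 : c ⊓ Y = Y := inf_eq_right.mpr c1
    have d2 : c ⊓ Z = Z := inf_eq_right.mpr c2
    have d3 : c ⊓ (Y ⊔ Z) = Y ⊔ Z := inf_eq_right.mpr h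
    have d4 : c ⊓ (Y ⊓ Z) = Y ⊓ Z := inf_eq_right.mpr c4
    have d1' : Y ⊓ c = Y := inf_eq_left.mpr c1
    have d2' : Z ⊓ c = Z := inf_eq_left.mpr c2
    have d3' : (Y ⊔ Z) ⊓ c = Y ⊔ Z := inf_eq_left.mpr h
    have d4' : (Y ⊓ Z) ⊓ c = Y ⊓ Z := inf_eq_left.mpr c4
    rcases hu with rfl | rfl | rfl | rfl | rfl <;> rcases hv with rfl | rfl | rfl | rfl | rfl <;>
      simp only [inf_idem, e1, e2, e3, e4, e5, e1', e2', e3', e4', e5', e6, d1, d2, d3, d4,
        d1', d2', d3', d4', true_or, or_true]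

/-- A distributive, dually distributive, cancellable element is neutral. -/
lemma neutral_of {a : L} (hD : ∀ x y : L, a ⊔ (x ⊓ y) = (a ⊔ x) ⊓ (a ⊔ y))
    (hD' : ∀ x y : L, a ⊓ (x ⊔ y) = (a ⊓ x) ⊔ (a ⊓ y))
    (hC : ∀ x y : L, a ⊔ x = a ⊔ y → a ⊓ x = a ⊓ y → x = y) : IsNeutral a := by
  intro y z u v w hu hv hw
  have h1 : ∀ u, Gen a y z u → InE a (a ⊔ y) (a ⊔ z) (a ⊔ u) := by
    intro u hu
    have hc : a ≤ (a ⊔ y) ⊓ (a ⊔ z) ∨ (a ⊔ y) ⊔ (a ⊔ z) ≤ a :=
      Or.inl (le_inf le_sup_left le_sup_left)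
    induction hu with
    | a => exact Or.inl (sup_idem a)
    | y => exact Or.inr (Or.inl rfl)
    | z => exact Or.inr (Or.inr (Or.inl rfl))
    | sup _ _ h1 h2 =>
      rw [sup_sup_distrib_left]
      exact inE_sup hc h1 h2
    | inf _ _ h1 h2 =>
      rw [hD]
      exact inE_inf hc h1 h2
  have h2 : ∀ u, Gen a y z u → InE a (a ⊓ y) (a ⊓ z) (a ⊓ u) := by
    intro u hu
    have hc : a ≤ (a ⊓ y) ⊓ (a ⊓ z) ∨ (a ⊓ y) ⊔ (a ⊓ z) ≤ a :=
      Or.inr (sup_le inf_le_left inf_le_left)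
    induction hu with
    | a => exact Or.inl (inf_idem a)
    | y => exact Or.inr (Or.inl rfl)
    | z => exact Or.inr (Or.inr (Or.inl rfl))
    | sup _ _ h1 h2 =>
      rw [hD']
      exact inE_sup hc h1 h2
    | inf _ _ h1 h2 =>
      rw [inf_inf_distrib_left]
      exact inE_inf hc h1 h2
  apply hC
  · have e1 : a ⊔ (u ⊓ (v ⊔ w)) = (a ⊔ u) ⊓ ((a ⊔ v) ⊔ (a ⊔ w)) := by
      rw [hD, sup_sup_distrib_left a v w]
    have e2 : a ⊔ ((u ⊓ v) ⊔ (u ⊓ w)) = ((a ⊔ u) ⊓ (a ⊔ v)) ⊔ ((a ⊔ u) ⊓ (a ⊔ w)) := by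
      rw [sup_sup_distrib_left a (u ⊓ v) (u ⊓ w), hD, hD]
    rw [e1, e2]
    exact distr_E (Or.inl (le_inf le_sup_left le_sup_left)) (h1 u hu) (h1 v hv) (h1 w hw)
  · have e1 : a ⊓ (u ⊓ (v ⊔ w)) = (a ⊓ u) ⊓ ((a ⊓ v) ⊔ (a ⊓ w)) := by
      rw [inf_inf_distrib_left a u (v ⊔ w), hD']
    have e2 : a ⊓ ((u ⊓ v) ⊔ (u ⊓ w)) = ((a ⊓ u) ⊓ (a ⊓ v)) ⊔ ((a ⊓ u) ⊓ (a ⊓ w)) := by
      rw [hD', inf_inf_distrib_left a u v, inf_inf_distrib_left a u w]
    rw [e1, e2]
    exact distr_E (Or.inr (sup_le inf_le_left inf_le_left)) (h2 u hu) (h2 v hv) (h2 w hw)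

/-- A neutral element is distributive. -/
lemma distributive_of_neutral {a : L} (h : IsNeutral a) (x y : L) :
    a ⊔ (x ⊓ y) = (a ⊔ x) ⊓ (a ⊔ y) := by
  have ga : Gen a x y a := Gen.a
  have gx : Gen a x y x := Gen.y
  have gy : Gen a x y y := Gen.z
  have h1 := h x y (a ⊔ x) a y (Gen.sup ga gx) ga gy
  have h2 := h x y y a x gy ga gx
  rw [h1, inf_comm (a ⊔ x) a, inf_sup_self, inf_comm (a ⊔ x) y, h2, ← sup_assoc,
    inf_comm y a, sup_inf_self, inf_comm y x]

end LatticeTheory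

/-! ### `ZM` is neutral -/

/-- Substitution of `x''` for every variable `x`. -/
def dbl : T → T
  | .var n => T.pr (T.pr (.var n))
  | .zero => .zero
  | .imp s t => .imp (dbl s) (dbl t)

lemma eval_dbl (A : Alg.{u}) (v : ℕ → A.carrier) (t : T) :
    (dbl t).eval A v = t.eval A (fun i => A.imp (A.imp (v i) A.zero) A.zero) := by
  induction t with
  | var n => rfl
  | zero => rfl
  | imp s t hs ht =>
    simp only [dbl, T.eval]
    rw [hs, ht]

lemma mem_sup {V W : SubVar.{u}} {A : Alg.{u}} (hA : A ∈ (V ⊔ W).cls) {e : T × T}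
    (h1 : e ∈ Th V.cls) (h2 : e ∈ Th W.cls) : Holds A e := by
  have h3 : e ∈ Th (V ⊔ W).cls := by
    rw [th_sup]
    exact ⟨h1, h2⟩
  exact h3 A hA

lemma th_zm_of_nonvar {s t : T} (hs : ∀ n, s ≠ .var n) (ht : ∀ n, t ≠ .var n) :
    (s, t) ∈ Th (ZM.{u}).cls := by
  intro A hA v
  have hz := zm_imp hA
  change s.eval A v = t.eval A v
  rw [eval_zm hz v s hs, eval_zm hz v t ht]

lemma nonvar_of_th_zm {s t : T} (h : (s, t) ∈ Th (ZM.{u}).cls) {n : ℕ} (hs : s = .var n) :
    t = .var n := by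
  subst hs
  have h1 := h zmAlg zmAlg_mem (fun i => if i = n then ⟨true⟩ else ⟨false⟩)
  change (if n = n then (⟨true⟩ : ULift.{u} Bool) else ⟨false⟩) = t.eval zmAlg _ at h1
  rw [if_pos rfl] at h1
  cases t with
  | var m =>
    by_cases hmn : m = n
    · rw [hmn]
    · change (⟨true⟩ : ULift.{u} Bool) = (if m = n then ⟨true⟩ else ⟨false⟩) at h1
      rw [if_neg hmn] at h1
      have := congrArg ULift.down h1
      simp at this
  | zero =>
    have := congrArg ULift.down h1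
    simp [T.eval, zmAlg] at this
  | imp p q =>
    have := congrArg ULift.down h1
    simp [T.eval, zmAlg] at this

lemma pr_nonvar (t : T) (n : ℕ) : T.pr t ≠ .var n := by
  intro h
  cases h

/-- The subalgebra of all `a` with `a'' = a`. -/
def subA (A : Alg.{u}) (h0 : A.imp (A.imp A.zero A.zero) A.zero = A.zero)
    (h : ∀ x y, A.imp (A.imp (A.imp x y) A.zero) A.zero = A.imp x y) : Alg.{u} where
  carrier := {a : A.carrier // A.imp (A.imp a A.zero) A.zero = a}
  imp := fun x y => ⟨A.imp x.1 y.1, h x.1 y.1⟩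
  zero := ⟨A.zero, h0⟩

lemma eval_subA (A : Alg.{u}) (h0 : A.imp (A.imp A.zero A.zero) A.zero = A.zero)
    (h : ∀ x y, A.imp (A.imp (A.imp x y) A.zero) A.zero = A.imp x y)
    (v : ℕ → (subA A h0 h).carrier) (t : T) :
    (t.eval (subA A h0 h) v).1 = t.eval A (fun i => (v i).1) := by
  induction t with
  | var n => rfl
  | zero => rfl
  | imp s t hs ht =>
    change A.imp (s.eval (subA A h0 h) v).1 (t.eval (subA A h0 h) v).1 = _
    rw [hs, ht]
    rfl

lemma zm_distr_aux {X Y : SubVar.{u}} (hX : ¬ ZM ≤ X) {A : Alg.{u}}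
    (hAX : A ∈ (ZM ⊔ X).cls) (hAY : A ∈ (ZM ⊔ Y).cls) {e : T × T}
    (he1 : e ∈ Th (ZM.{u}).cls) (he2 : e ∈ Th (X ⊓ Y).cls) : Holds A e := by
  have hinv := inv2_of_not_zm hX
  have hAax : ∀ e ∈ IZax, Holds A e := fun e he => izax_sub _ he A hAX
  have h0 := ax2 hAax
  have hc : ∀ x y, A.imp (A.imp (A.imp x y) A.zero) A.zero = A.imp x y := by
    intro x y
    have h1 : (T.pr (T.pr (.imp (.var 0) (.var 1))), T.imp (.var 0) (.var 1)) ∈
        Th X.cls := by
      intro B hB v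
      exact (holds_inv2.mp (hinv B hB)) _
    have h2 : (T.pr (T.pr (.imp (.var 0) (.var 1))), T.imp (.var 0) (.var 1)) ∈
        Th (ZM.{u}).cls := th_zm_of_nonvar (pr_nonvar _) (by intro n h; cases h)
    exact mem_sup hAX h2 h1 (fun i => if i = 0 then x else y)
  let B := subA A h0 hc
  have hB : ∀ W : SubVar.{u}, A ∈ (ZM ⊔ W).cls → B ∈ W.cls := by
    intro W hAW
    rw [← mod_th W]
    intro e' he' v
    obtain ⟨s, t⟩ := e'
    have h1 : (T.pr (T.pr s), T.pr (T.pr t)) ∈ Th W.cls := by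
      intro C hC w
      have := he' C hC w
      change s.eval C w = t.eval C w at this
      change C.imp (C.imp (s.eval C w) C.zero) C.zero = C.imp (C.imp (t.eval C w) C.zero) C.zero
      rw [this]
    have h2 := mem_sup hAW (th_zm_of_nonvar (pr_nonvar _) (pr_nonvar _)) h1
      (fun i => (v i).1)
    change A.imp (A.imp (s.eval A (fun i => (v i).1)) A.zero) A.zero =
      A.imp (A.imp (t.eval A (fun i => (v i).1)) A.zero) A.zero at h2
    apply Subtype.ext
    change (s.eval B v).1 = (t.eval B v).1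
    rw [← eval_subA A h0 hc v s, ← eval_subA A h0 hc v t] at h2
    rw [(s.eval B v).2, (t.eval B v).2] at h2
    exact h2
  have hBXY : B ∈ (X ⊓ Y).cls := ⟨hB X hAX, hB Y hAY⟩
  obtain ⟨s, t⟩ := e
  have hBe := he2 B hBXY
  by_cases hs : ∃ n, s = .var n
  · obtain ⟨n, hn⟩ := hs
    have := nonvar_of_th_zm he1 hn
    rw [hn, this]
    intro v
    rfl
  · by_cases ht : ∃ n, t = .var n
    · obtain ⟨n, hn⟩ := ht
      have := nonvar_of_th_zm (fun A hA v => (he1 A hA v).symm) hn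
      exact absurd ⟨n, this⟩ hs
    · have key : ∀ r : T, (∀ n, r ≠ .var n) → ∀ v : ℕ → A.carrier,
          r.eval A v = r.eval A (fun i => A.imp (A.imp (v i) A.zero) A.zero) := by
        intro r hr v
        rw [← eval_dbl]
        have h1 : (r, dbl r) ∈ Th X.cls := by
          intro C hC w
          change r.eval C w = (dbl r).eval C w
          rw [eval_dbl]
          congr 1
          funext i
          exact ((holds_inv2.mp (hinv C hC)) (w i)).symm
        have h2 : (r, dbl r) ∈ Th (ZM.{u}).cls := by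
          apply th_zm_of_nonvar hr
          intro n h
          cases r with
          | var m => exact hr m rfl
          | zero => cases h
          | imp p q => cases h
        exact mem_sup hAX h2 h1 v
      intro v
      change s.eval A v = t.eval A v
      rw [key s (fun n h => hs ⟨n, h⟩) v, key t (fun n h => ht ⟨n, h⟩) v]
      let w : ℕ → B.carrier := fun i =>
        ⟨A.imp (A.imp (v i) A.zero) A.zero, pr4 hAax (v i)⟩
      have h1 := congrArg Subtype.val (hBe w)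
      change (s.eval B w).1 = (t.eval B w).1 at h1
      rw [eval_subA, eval_subA] at h1
      exact h1

lemma zm_distr (X Y : SubVar.{u}) : ZM ⊔ (X ⊓ Y) = (ZM ⊔ X) ⊓ (ZM ⊔ Y) := by
  apply le_antisymm
  · exact le_inf (sup_le_sup_left inf_le_left _) (sup_le_sup_left inf_le_right _)
  · by_cases hX : ZM ≤ X
    · by_cases hY : ZM ≤ Y
      · rw [sup_eq_right.mpr hX, sup_eq_right.mpr hY]
        exact le_sup_right
      · rintro A ⟨hAX, hAY⟩ e he
        refine zm_distr_aux hY hAY hAX (fun B hB => he B (Or.inl hB)) ?_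
        intro B hB
        exact he B (Or.inr ⟨hB.2, hB.1⟩)
    · rintro A ⟨hAX, hAY⟩ e he
      exact zm_distr_aux hX hAX hAY (fun B hB => he B (Or.inl hB))
        (fun B hB => he B (Or.inr hB))

lemma zm_inf_le {W V : SubVar.{u}} (h : ¬ ZM ≤ W) : ZM ⊓ W ≤ V := by
  rintro A ⟨h1, h2⟩
  have h3 := holds_inv2.mp (inv2_of_not_zm h A h2)
  have h4 : ∀ x : A.carrier, x = A.zero := by
    intro x
    rw [← h3 x]
    exact zm_imp h1 _ _
  rw [← mod_th V]
  intro e _ v
  rw [h4 (e.1.eval A v), h4 (e.2.eval A v)]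

lemma zm_dual_distr (X Y : SubVar.{u}) : ZM ⊓ (X ⊔ Y) = (ZM ⊓ X) ⊔ (ZM ⊓ Y) := by
  apply le_antisymm
  · by_cases hX : ZM ≤ X
    · exact (le_inf inf_le_left (inf_le_left.trans hX)).trans le_sup_left
    · by_cases hY : ZM ≤ Y
      · exact (le_inf inf_le_left (inf_le_left.trans hY)).trans le_sup_right
      · apply zm_inf_le
        apply not_zm_of_inv2
        rw [th_sup]
        exact ⟨inv2_of_not_zm hX, inv2_of_not_zm hY⟩
  · exact sup_le (inf_le_inf_left _ le_sup_left) (inf_le_inf_left _ le_sup_right)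

lemma zm_cancel_aux {X Y : SubVar.{u}} (hX : ¬ ZM ≤ X) (h1 : ZM ⊔ X = ZM ⊔ Y) : X ≤ Y := by
  intro A hA
  rw [← mod_th Y]
  intro e he v
  obtain ⟨s, t⟩ := e
  have h2 : (T.pr (T.pr s), T.pr (T.pr t)) ∈ Th Y.cls := by
    intro C hC w
    have := he C hC w
    change s.eval C w = t.eval C w at this
    change C.imp (C.imp (s.eval C w) C.zero) C.zero = C.imp (C.imp (t.eval C w) C.zero) C.zero
    rw [this]
  have h3 : A ∈ (ZM ⊔ Y).cls := by
    rw [← h1]
    exact (le_sup_right : X ≤ ZM ⊔ X) hA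
  have h4 := mem_sup h3 (th_zm_of_nonvar (pr_nonvar _) (pr_nonvar _)) h2 v
  have h5 := holds_inv2.mp (inv2_of_not_zm hX A hA)
  change A.imp (A.imp (s.eval A v) A.zero) A.zero = A.imp (A.imp (t.eval A v) A.zero) A.zero
    at h4
  rw [h5, h5] at h4
  exact h4

lemma zm_cancel (X Y : SubVar.{u}) (h1 : ZM ⊔ X = ZM ⊔ Y) (h2 : ZM ⊓ X = ZM ⊓ Y) :
    X = Y := by
  have hiff : ∀ W : SubVar.{u}, ZM ≤ W ↔ ZM ⊓ W = ZM := fun W => inf_eq_left.symm
  by_cases hX : ZM ≤ X
  · have hY : ZM ≤ Y := by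
      rw [hiff, ← h2]
      exact (hiff X).mp hX
    rw [sup_eq_right.mpr hX, sup_eq_right.mpr hY] at h1
    exact h1
  · have hY : ¬ ZM ≤ Y := by
      intro hY
      apply hX
      rw [hiff, h2]
      exact (hiff Y).mp hY
    exact le_antisymm (zm_cancel_aux hX h1) (zm_cancel_aux hY h1.symm)

theorem zm_neutral : IsNeutral (ZM.{u}) := neutral_of zm_distr zm_dual_distr zm_cancel

/-! ### The three-element algebra -/

/-- Elements `0, a, b`. -/
inductive E3 : Type
  | o | a | b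

/-- `a → y = b`, all other products are `0`. -/
def E3.imp : E3 → E3 → E3
  | .a, _ => .b
  | _, _ => .o

/-- The three-element algebra. -/
def B3 : Alg.{u} where
  carrier := ULift.{u} E3
  imp := fun x y => ⟨E3.imp x.down y.down⟩
  zero := ⟨.o⟩

lemma e3_imp_imp (x y z : E3) : E3.imp (E3.imp x y) z = .o := by
  cases x <;> rfl

lemma b3_izax : ∀ e ∈ IZax, Holds B3.{u} e := by
  intro e he v
  simp only [IZax, Set.mem_insert_iff, Set.mem_singleton_iff] at he
  rcases he with rfl | rfl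
  · change (⟨E3.imp (E3.imp (v 0).down (v 1).down) (v 2).down⟩ : ULift.{u} E3) =
      ⟨E3.imp (E3.imp _ _) .o⟩
    rw [e3_imp_imp, e3_imp_imp]
  · rfl

/-- The variety generated by the three-element algebra. -/
def XV : SubVar.{u} := ⟨Mod (Th {B3.{u}}), Th {B3.{u}}, by
  rintro e he A hA
  rw [Set.mem_singleton_iff] at hA
  rw [hA]
  exact b3_izax e he, rfl⟩

lemma mem_th_XV {e : T × T} : e ∈ Th (XV.{u}).cls ↔ Holds B3.{u} e := by
  constructor
  · intro h
    apply h
    intro e' he'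
    exact he' _ rfl
  · intro h A hA
    apply hA
    intro B hB
    rw [Set.mem_singleton_iff] at hB
    rw [hB]
    exact h

/-- The kind of a term: a variable, `x_n → w`, or anything else. -/
inductive Kind (t : T) : Prop
  | var (n : ℕ) (h : t = .var n) : Kind t
  | imp (n : ℕ) (w : T) (h : t = .imp (.var n) w) : Kind t
  | other (h1 : ∀ n, t ≠ .var n) (h2 : ∀ n w, t ≠ .imp (.var n) w) : Kind t

lemma kind (t : T) : Kind t := by
  cases t with
  | var n => exact .var n rfl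
  | zero => exact .other (by intro n h; cases h) (by intro n w h; cases h)
  | imp p q =>
    cases p with
    | var n => exact .imp n q rfl
    | zero => exact .other (by intro n h; cases h) (by intro n w h; cases h)
    | imp p1 p2 => exact .other (by intro n h; cases h) (by intro n w h; cases h)

/-- Assignment `a` at `n` and `0` elsewhere. -/
def asg (n : ℕ) : ℕ → ULift.{u} E3 := fun i => if i = n then ⟨.a⟩ else ⟨.o⟩

lemma eval_other_B3 {t : T} (h1 : ∀ n, t ≠ .var n) (h2 : ∀ n w, t ≠ .imp (.var n) w)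
    (v : ℕ → ULift.{u} E3) : t.eval B3.{u} v = ⟨.o⟩ := by
  cases t with
  | var n => exact absurd rfl (h1 n)
  | zero => rfl
  | imp p q =>
    cases p with
    | var n => exact absurd rfl (h2 n q)
    | zero => rfl
    | imp p1 p2 =>
      change (⟨E3.imp (E3.imp _ _) _⟩ : ULift.{u} E3) = _
      rw [e3_imp_imp]

lemma eval_imp_B3 (n m : ℕ) (w : T) :
    (T.imp (.var n) w).eval B3.{u} (asg m) = if n = m then ⟨.b⟩ else ⟨.o⟩ := by
  change (⟨E3.imp (asg.{u} m n).down _⟩ : ULift.{u} E3) = _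
  unfold asg
  split_ifs <;> rfl

lemma eval_var_B3 (n m : ℕ) :
    (T.var n).eval B3.{u} (asg m) = if n = m then ⟨.a⟩ else ⟨.o⟩ := rfl

lemma ne_ab : (⟨E3.a⟩ : ULift.{u} E3) ≠ ⟨.b⟩ := fun h => by cases congrArg ULift.down h
lemma ne_ao : (⟨E3.a⟩ : ULift.{u} E3) ≠ ⟨.o⟩ := fun h => by cases congrArg ULift.down h
lemma ne_bo : (⟨E3.b⟩ : ULift.{u} E3) ≠ ⟨.o⟩ := fun h => by cases congrArg ULift.down h

/-- Identities of the three-element algebra. -/
lemma kind_of_holds {s t : T} (h : Holds B3.{u} (s, t)) :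
    s = t ∨ (∃ n w w', s = .imp (.var n) w ∧ t = .imp (.var n) w') ∨
      (((∀ n, s ≠ .var n) ∧ ∀ n w, s ≠ .imp (.var n) w) ∧
        ((∀ n, t ≠ .var n) ∧ ∀ n w, t ≠ .imp (.var n) w)) := by
  have hv : ∀ v, s.eval B3.{u} v = t.eval B3.{u} v := h
  rcases kind s with ⟨n, rfl⟩ | ⟨n, w, rfl⟩ | ⟨h1, h2⟩
  · have h3 := hv (asg n)
    rw [eval_var_B3, if_pos rfl] at h3
    rcases kind t with ⟨m, rfl⟩ | ⟨m, w', rfl⟩ | ⟨h1', h2'⟩
    · rw [eval_var_B3] at h3
      by_cases hmn : m = n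
      · left
        rw [hmn]
      · rw [if_neg hmn] at h3
        exact absurd h3 ne_ao
    · rw [eval_imp_B3] at h3
      split_ifs at h3
      · exact absurd h3 ne_ab
      · exact absurd h3 ne_ao
    · rw [eval_other_B3 h1' h2'] at h3
      exact absurd h3 ne_ao
  · have h3 := hv (asg n)
    rw [eval_imp_B3, if_pos rfl] at h3
    rcases kind t with ⟨m, rfl⟩ | ⟨m, w', rfl⟩ | ⟨h1', h2'⟩
    · rw [eval_var_B3] at h3
      split_ifs at h3
      · exact absurd h3.symm ne_ab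
      · exact absurd h3 ne_bo
    · rw [eval_imp_B3] at h3
      by_cases hmn : m = n
      · right
        left
        subst hmn
        exact ⟨m, w, w', rfl, rfl⟩
      · rw [if_neg hmn] at h3
        exact absurd h3 ne_bo
    · rw [eval_other_B3 h1' h2'] at h3
      exact absurd h3 ne_bo
  · rcases kind t with ⟨m, rfl⟩ | ⟨m, w', rfl⟩ | ⟨h1', h2'⟩
    · have h3 := hv (asg m)
      rw [eval_var_B3, if_pos rfl, eval_other_B3 h1 h2] at h3
      exact absurd h3.symm ne_ao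
    · have h3 := hv (asg m)
      rw [eval_imp_B3, if_pos rfl, eval_other_B3 h1 h2] at h3
      exact absurd h3.symm ne_bo
    · exact Or.inr (Or.inr ⟨⟨h1, h2⟩, h1', h2'⟩)

/-! ### The four-element algebras -/

/-- Elements `0, x, c, d`. -/
inductive E4 : Type
  | o | x | c | d

/-- The operation of the first four-element algebra. -/
def E4.imp : E4 → E4 → E4
  | .x, .o => .o
  | .x, .x => .o
  | .x, .c => .d
  | .x, .d => .d
  | .o, .o => .o
  | .o, .x => .o
  | .o, .c => .c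
  | .o, .d => .c
  | .c, _ => .c
  | .d, _ => .c

/-- The level map, a homomorphism onto the two-element semilattice. -/
def E4.lev : E4 → Bool
  | .o => false
  | .x => false
  | .c => true
  | .d => true

lemma lev_imp (p q : E4) : (E4.imp p q).lev = (p.lev || q.lev) := by
  cases p <;> cases q <;> rfl

/-- Semilattice part. -/
def E4.ofLev : Bool → E4
  | false => .o
  | true => .c

lemma imp_of_ne {p : E4} (hp : p ≠ .x) (q : E4) : E4.imp p q = E4.ofLev (p.lev || q.lev) := by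
  cases p <;> cases q <;> first | rfl | exact absurd rfl hp

lemma imp_x (q : E4) : E4.imp .x q = if q.lev then .d else .o := by
  cases q <;> rfl

lemma imp_ne_x (p q : E4) : E4.imp p q ≠ .x := by
  cases p <;> cases q <;> intro h <;> cases h

/-- The first four-element algebra. -/
def A4 : Alg.{u} where
  carrier := ULift.{u} E4
  imp := fun x y => ⟨E4.imp x.down y.down⟩
  zero := ⟨.o⟩

/-- The two-element semilattice. -/
def S2 : Alg.{u} where
  carrier := ULift.{u} Bool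
  imp := fun x y => ⟨x.down || y.down⟩
  zero := ⟨false⟩

lemma s2_mem : S2.{u} ∈ (SL.{u}).cls := by
  rintro e (he | he) v
  · simp only [IZax, Set.mem_insert_iff, Set.mem_singleton_iff] at he
    rcases he with rfl | rfl
    · change (⟨((v 0).down || (v 1).down) || (v 2).down⟩ : ULift.{u} Bool) =
        ⟨((((v 2).down || false) || (v 0).down) || (((v 1).down || (v 2).down) || false))
          || false⟩
      congr 1
      cases (v 0).down <;> cases (v 1).down <;> cases (v 2).down <;> rfl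
    · rfl
  · simp only [Set.mem_insert_iff, Set.mem_singleton_iff] at he
    rcases he with rfl | rfl | rfl
    · change (⟨((v 0).down || (v 1).down) || (v 2).down⟩ : ULift.{u} Bool) =
        ⟨(v 0).down || ((v 1).down || (v 2).down)⟩
      rw [Bool.or_assoc]
    · change (⟨(v 0).down || (v 0).down⟩ : ULift.{u} Bool) = v 0
      rw [Bool.or_self]
      rfl
    · change (⟨(v 0).down || (v 1).down⟩ : ULift.{u} Bool) = ⟨(v 1).down || (v 0).down⟩
      rw [Bool.or_comm]

lemma eval_S2 (v : ℕ → ULift.{u} E4) (t : T) :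
    t.eval S2.{u} (fun i => ⟨(v i).down.lev⟩) = ⟨(t.eval A4.{u} v).down.lev⟩ := by
  induction t with
  | var n => rfl
  | zero => rfl
  | imp s t hs ht =>
    change (⟨(s.eval S2.{u} (fun i => ⟨(v i).down.lev⟩)).down ||
      (t.eval S2.{u} (fun i => ⟨(v i).down.lev⟩)).down⟩ : ULift.{u} Bool) =
      ⟨(E4.imp (s.eval A4.{u} v).down (t.eval A4.{u} v).down).lev⟩
    rw [hs, ht, lev_imp]

lemma eval_other_A4 {t : T} (h1 : ∀ n, t ≠ .var n) (h2 : ∀ n w, t ≠ .imp (.var n) w)
    (v : ℕ → ULift.{u} E4) :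
    t.eval A4.{u} v = ⟨E4.ofLev (t.eval A4.{u} v).down.lev⟩ := by
  cases t with
  | var n => exact absurd rfl (h1 n)
  | zero => rfl
  | imp p q =>
    have key : ∀ p' : E4, p' ≠ .x → ∀ q' : E4,
        E4.imp p' q' = E4.ofLev (E4.imp p' q').lev := by
      intro p' hp' q'
      rw [lev_imp]
      exact imp_of_ne hp' q'
    cases p with
    | var n => exact absurd rfl (h2 n q)
    | zero => exact congrArg ULift.up (key .o (by intro h; cases h) _)
    | imp p1 p2 => exact congrArg ULift.up (key _ (imp_ne_x _ _) _)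

lemma a4_mem_sup : A4.{u} ∈ (SL ⊔ XV.{u}).cls := by
  intro e he
  obtain ⟨s, t⟩ := e
  have h1 : Holds S2.{u} (s, t) := he _ (Or.inl s2_mem)
  have h2 : Holds B3.{u} (s, t) := he _ (Or.inr (by
    intro e' he'
    exact he' _ rfl))
  intro v
  change s.eval A4.{u} v = t.eval A4.{u} v
  have hlev : (s.eval A4.{u} v).down.lev = (t.eval A4.{u} v).down.lev := by
    have h3 := h1 (fun i => ⟨(v i).down.lev⟩)
    change s.eval S2.{u} _ = t.eval S2.{u} _ at h3
    rw [eval_S2, eval_S2] at h3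
    exact congrArg ULift.down h3
  rcases kind_of_holds h2 with h | ⟨n, w, w', rfl, rfl⟩ | ⟨⟨h3, h4⟩, h5, h6⟩
  · rw [h]
  · change (⟨E4.imp (v n).down (w.eval A4.{u} v).down⟩ : ULift.{u} E4) =
      ⟨E4.imp (v n).down (w'.eval A4.{u} v).down⟩
    congr 1
    change (E4.imp (v n).down (w.eval A4.{u} v).down).lev =
      (E4.imp (v n).down (w'.eval A4.{u} v).down).lev at hlev
    by_cases hx : (v n).down = .x
    · rw [hx] at hlev ⊢
      rw [lev_imp, lev_imp] at hlev
      change (w.eval A4.{u} v).down.lev = (w'.eval A4.{u} v).down.lev at hlev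
      rw [imp_x, imp_x, hlev]
    · rw [lev_imp, lev_imp] at hlev
      rw [imp_of_ne hx, imp_of_ne hx, hlev]
  · rw [eval_other_A4 h3 h4, eval_other_A4 h5 h6, hlev]

/-- The variety given by `x → x = (x → x) → x`. -/
def YS : SubVar.{u} :=
  ⟨Mod (IZax ∪ {(.imp (.var 0) (.var 0), .imp (.imp (.var 0) (.var 0)) (.var 0))}), _,
    Set.subset_union_left, rfl⟩

lemma a4_mem_YS : A4.{u} ∈ (YS.{u}).cls := by
  rintro e (he | he) v
  · exact izax_sub _ he _ a4_mem_sup v
  · rw [Set.mem_singleton_iff] at he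
    subst he
    change (⟨E4.imp (v 0).down (v 0).down⟩ : ULift.{u} E4) =
      ⟨E4.imp (E4.imp (v 0).down (v 0).down) (v 0).down⟩
    congr 1
    cases (v 0).down <;> rfl

theorem sl_not_neutral : ¬ IsNeutral (SL.{u}) := by
  intro h
  have h1 := distributive_of_neutral h XV YS
  have h2 : A4.{u} ∈ (SL ⊔ (XV ⊓ YS.{u})).cls := by
    rw [h1]
    exact ⟨a4_mem_sup, (le_sup_right : YS.{u} ≤ SL ⊔ YS) a4_mem_YS⟩
  have h3 : Holds A4.{u} (.imp (.var 0) (.var 1), .imp (.imp (.var 0) (.var 1)) (.var 0)) := by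
    apply mem_sup h2
    · intro A hA v
      have ha : ∀ x y z : A.carrier, A.imp (A.imp x y) z = A.imp x (A.imp y z) := by
        intro x y z
        have := hA _ (Or.inr (Or.inl rfl)) (fun i => if i = 0 then x else if i = 1 then y else z)
        simpa [T.eval] using this
      have hi : ∀ x : A.carrier, A.imp x x = x := fun x =>
        hA _ (Or.inr (Or.inr (Or.inl rfl))) (fun _ => x)
      have hcm : ∀ x y : A.carrier, A.imp x y = A.imp y x := by
        intro x y
        have := hA _ (Or.inr (Or.inr (Or.inr rfl))) (fun i => if i = 0 then x else y)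
        simpa [T.eval] using this
      change A.imp (v 0) (v 1) = A.imp (A.imp (v 0) (v 1)) (v 0)
      rw [hcm (A.imp (v 0) (v 1)) (v 0), ← ha, hi]
    · rintro A ⟨hAX, hAY⟩ v
      have e1 : (T.imp (.var 0) (.var 1), T.imp (.var 0) (.var 0)) ∈ Th (XV.{u}).cls := by
        rw [mem_th_XV]
        intro w
        change (⟨E3.imp (w 0).down _⟩ : ULift.{u} E3) = ⟨E3.imp (w 0).down _⟩
        congr 1
        cases (w 0).down <;> rfl
      have e2 : (T.imp (.imp (.var 0) (.var 0)) (.var 0),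
          T.imp (.imp (.var 0) (.var 1)) (.var 0)) ∈ Th (XV.{u}).cls := by
        rw [mem_th_XV]
        intro w
        change (⟨E3.imp (E3.imp _ _) _⟩ : ULift.{u} E3) = ⟨E3.imp (E3.imp _ _) _⟩
        rw [e3_imp_imp, e3_imp_imp]
      have f1 := e1 A hAX v
      have f2 := e2 A hAX v
      have f3 := hAY _ (Or.inr rfl) v
      exact (f1.trans f3).trans f2
  have h4 := h3 (fun i => if i = 0 then ⟨.x⟩ else ⟨.c⟩)
  have h5 : (⟨E4.d⟩ : ULift.{u} E4) = ⟨.c⟩ := h4
  cases congrArg ULift.down h5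

/-- Elements `0, 1, x, d`. -/
inductive F4 : Type
  | o | i | x | d

/-- The Boolean value. -/
def F4.val : F4 → Bool
  | .o => false
  | .i => true
  | .x => true
  | .d => false

/-- Boolean part. -/
def F4.ofBool : Bool → F4
  | false => .o
  | true => .i

/-- The operation of the second four-element algebra. -/
def F4.imp : F4 → F4 → F4
  | .x, q => if q.val then .i else .d
  | p, q => F4.ofBool (!p.val || q.val)

lemma val_imp (p q : F4) : (F4.imp p q).val = (!p.val || q.val) := by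
  cases p <;> cases q <;> rfl

lemma fimp_of_ne {p : F4} (hp : p ≠ .x) (q : F4) :
    F4.imp p q = F4.ofBool (!p.val || q.val) := by
  cases p <;> first | rfl | exact absurd rfl hp

lemma fimp_ne_x (p q : F4) : F4.imp p q ≠ .x := by
  cases p <;> cases q <;> intro h <;> cases h

/-- The second four-element algebra. -/
def C4 : Alg.{u} where
  carrier := ULift.{u} F4
  imp := fun x y => ⟨F4.imp x.down y.down⟩
  zero := ⟨.o⟩

/-- The two-element Boolean algebra, in an arbitrary universe. -/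
abbrev PB : Type u := Set PUnit.{u + 1}

/-- A Boolean value as an element of the two-element Boolean algebra. -/
def toPB (b : Bool) : PB.{u} := {_x | b = true}

lemma toPB_inj {b c : Bool} (h : toPB.{u} b = toPB c) : b = c := by
  have h1 : (PUnit.unit ∈ toPB.{u} b) ↔ (PUnit.unit ∈ toPB.{u} c) := by rw [h]
  have h2 : (b = true) ↔ (c = true) := h1
  cases b <;> cases c <;> simp_all

lemma toPB_imp (b c : Bool) : toPB.{u} (!b || c) = (toPB b)ᶜ ⊔ toPB c := by
  apply Set.ext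
  intro x
  change ((!b || c) = true) ↔ (¬ (b = true) ∨ (c = true))
  cases b <;> cases c <;> simp

lemma toPB_false : toPB.{u} false = ⊥ := by
  apply Set.ext
  intro x
  change (false = true) ↔ False
  simp

lemma eval_bool (v : ℕ → ULift.{u} F4) (t : T) :
    t.eval (ofBA PB.{u}) (fun i => toPB (v i).down.val) =
      toPB (t.eval C4.{u} v).down.val := by
  induction t with
  | var n => rfl
  | zero => exact toPB_false.symm
  | imp s t hs ht =>
    have h : (t.eval C4.{u} v) = t.eval C4.{u} v := rfl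
    change (ofBA PB.{u}).imp (s.eval (ofBA PB.{u}) (fun i => toPB (v i).down.val))
      (t.eval (ofBA PB.{u}) (fun i => toPB (v i).down.val)) =
      toPB (F4.imp (s.eval C4.{u} v).down (t.eval C4.{u} v).down).val
    rw [hs, ht, val_imp, toPB_imp]
    rfl

lemma eval_other_C4 {t : T} (h1 : ∀ n, t ≠ .var n) (h2 : ∀ n w, t ≠ .imp (.var n) w)
    (v : ℕ → ULift.{u} F4) :
    t.eval C4.{u} v = ⟨F4.ofBool (t.eval C4.{u} v).down.val⟩ := by
  cases t with
  | var n => exact absurd rfl (h1 n)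
  | zero => rfl
  | imp p q =>
    have key : ∀ p' : F4, p' ≠ .x → ∀ q' : F4,
        F4.imp p' q' = F4.ofBool (F4.imp p' q').val := by
      intro p' hp' q'
      rw [val_imp]
      exact fimp_of_ne hp' q'
    cases p with
    | var n => exact absurd rfl (h2 n q)
    | zero => exact congrArg ULift.up (key .o (by intro h; cases h) _)
    | imp p1 p2 => exact congrArg ULift.up (key _ (fimp_ne_x _ _) _)

lemma ofBA_mem (B : Type u) [BooleanAlgebra B] : ofBA B ∈ (BA.{u}).cls := by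
  intro e he
  exact he _ ⟨B, inferInstance, rfl⟩

lemma c4_mem_sup : C4.{u} ∈ (BA ⊔ XV.{u}).cls := by
  intro e he
  obtain ⟨s, t⟩ := e
  have h1 : Holds (ofBA PB.{u}) (s, t) := he _ (Or.inl (ofBA_mem _))
  have h2 : Holds B3.{u} (s, t) := he _ (Or.inr (by
    intro e' he'
    exact he' _ rfl))
  intro v
  change s.eval C4.{u} v = t.eval C4.{u} v
  have hval : (s.eval C4.{u} v).down.val = (t.eval C4.{u} v).down.val := by
    have h3 := h1 (fun i => toPB (v i).down.val)
    change s.eval (ofBA PB.{u}) _ = t.eval (ofBA PB.{u}) _ at h3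
    rw [eval_bool, eval_bool] at h3
    exact toPB_inj h3
  rcases kind_of_holds h2 with h | ⟨n, w, w', rfl, rfl⟩ | ⟨⟨h3, h4⟩, h5, h6⟩
  · rw [h]
  · change (⟨F4.imp (v n).down (w.eval C4.{u} v).down⟩ : ULift.{u} F4) =
      ⟨F4.imp (v n).down (w'.eval C4.{u} v).down⟩
    congr 1
    change (F4.imp (v n).down (w.eval C4.{u} v).down).val =
      (F4.imp (v n).down (w'.eval C4.{u} v).down).val at hval
    by_cases hx : (v n).down = .x
    · rw [hx] at hval ⊢
      rw [val_imp, val_imp] at hval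
      change (w.eval C4.{u} v).down.val = (w'.eval C4.{u} v).down.val at hval
      change (if (w.eval C4.{u} v).down.val then F4.i else F4.d) =
        if (w'.eval C4.{u} v).down.val then F4.i else F4.d
      rw [hval]
    · rw [val_imp, val_imp] at hval
      rw [fimp_of_ne hx, fimp_of_ne hx, hval]
  · rw [eval_other_C4 h3 h4, eval_other_C4 h5 h6, hval]

/-- The variety given by `x → x = (x → x) → (x → x)`. -/
def YB : SubVar.{u} :=
  ⟨Mod (IZax ∪ {(.imp (.var 0) (.var 0),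
    .imp (.imp (.var 0) (.var 0)) (.imp (.var 0) (.var 0)))}), _,
    Set.subset_union_left, rfl⟩

lemma c4_mem_YB : C4.{u} ∈ (YB.{u}).cls := by
  rintro e (he | he) v
  · exact izax_sub _ he _ c4_mem_sup v
  · rw [Set.mem_singleton_iff] at he
    subst he
    change (⟨F4.imp (v 0).down (v 0).down⟩ : ULift.{u} F4) =
      ⟨F4.imp (F4.imp (v 0).down (v 0).down) (F4.imp (v 0).down (v 0).down)⟩
    congr 1
    cases (v 0).down <;> rfl

theorem ba_not_neutral : ¬ IsNeutral (BA.{u}) := by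
  intro h
  have h1 := distributive_of_neutral h XV YB
  have h2 : C4.{u} ∈ (BA ⊔ (XV ⊓ YB.{u})).cls := by
    rw [h1]
    exact ⟨c4_mem_sup, (le_sup_right : YB.{u} ≤ BA ⊔ YB) c4_mem_YB⟩
  have h3 : Holds C4.{u} (.imp (.var 0) (.var 1), T.pr (T.pr (.imp (.var 0) (.var 1)))) := by
    apply mem_sup h2
    · intro A hA v
      have : (T.imp (.var 0) (.var 1), T.pr (T.pr (.imp (.var 0) (.var 1)))) ∈
          Th BAcls.{u} := by
        rintro A' ⟨B, _, rfl⟩ w
        have key : ∀ x y : B, xᶜ ⊔ y = ((xᶜ ⊔ y)ᶜ ⊔ ⊥)ᶜ ⊔ ⊥ := by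
          intro x y
          simp
        exact key (w 0) (w 1)
      exact hA _ this v
    · rintro A ⟨hAX, hAY⟩ v
      have e1 : (T.imp (.var 0) (.var 1), T.imp (.var 0) (.var 0)) ∈ Th (XV.{u}).cls := by
        rw [mem_th_XV]
        intro w
        change (⟨E3.imp (w 0).down _⟩ : ULift.{u} E3) = ⟨E3.imp (w 0).down _⟩
        congr 1
        cases (w 0).down <;> rfl
      have e2 : (T.imp (.imp (.var 0) (.var 0)) (.imp (.var 0) (.var 0)),
          T.pr (T.pr (.imp (.var 0) (.var 1)))) ∈ Th (XV.{u}).cls := by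
        rw [mem_th_XV]
        intro w
        change (⟨E3.imp (E3.imp _ _) _⟩ : ULift.{u} E3) = ⟨E3.imp (E3.imp _ _) _⟩
        rw [e3_imp_imp, e3_imp_imp]
      have f1 := e1 A hAX v
      have f2 := e2 A hAX v
      have f3 := hAY _ (Or.inr rfl) v
      exact (f1.trans f3).trans f2
  have h4 := h3 (fun i => if i = 0 then ⟨.x⟩ else ⟨.o⟩)
  have h5 : (⟨F4.d⟩ : ULift.{u} F4) = ⟨.o⟩ := h4
  cases congrArg ULift.down h5

/-- `ZM` is neutral; `SL` and `BA` are not neutral. -/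
theorem result : IsNeutral (ZM.{u}) ∧ ¬ IsNeutral (SL.{u}) ∧ ¬ IsNeutral (BA.{u}) :=
  ⟨zm_neutral, sl_not_neutral, ba_not_neutral⟩

end Pool.Agent.Results.MP_be65b5_al.Neutrality
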